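import Pool.Agent.H439_Hyper.Main

/-!
# The generic `H_4`-free 3-hypertournament has a finite-language Ramsey expansion

This answers Q1 of MP_638395_co positively.  All definitions used in the statement are in
`Pool.Agent.H439_Hyper.Defs`; the proof is in the other modules of `Pool.Agent.H439_Hyper`.
-/

set_option autoImplicit false

namespace Pool.Agent.Results.MP_638395_co.RamseyExpansion

open FirstOrder Language Structure Pool.Agent.H439_Hyper

/-- **Positive answer to Q1 of MP_638395_co.**  The Fraisse limit `𝕎` of the class `𝒲` of finite
`H_4`-free 3-hypertournaments exists and, whichever copy `M` of it is taken, it has a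
finite-language Ramsey expansion: there is a linear order `<` on `M` such that the expansion
`(M, R, <)` in the language `{R, <}` is ultrahomogeneous and its age has the Ramsey property. -/
theorem result :
    (∃ (M : Type) (_ : LR.Structure M) (_ : Countable M), IsFraisseLimit W M) ∧
    ∀ (M : Type) [LR.Structure M] [Countable M], IsFraisseLimit W M →
      ∃ lt : M → M → Prop, IsStrictTotalOrder M lt ∧
        IsFiniteLanguageRamseyExpansion incl M (expandBy M lt) :=
  main

end Pool.Agent.Results.MP_638395_co.RamseyExpansion
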